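import Mathlib

open SimpleGraph Finset

namespace Pool.Agent.Lib.MP_572a82_pr

variable {V : Type*}

/-- `G` with the pair `u v` deleted. -/
abbrev del (G : SimpleGraph V) (u v : V) : SimpleGraph V := G.deleteEdges {s(u, v)}

lemma del_le (G : SimpleGraph V) (u v : V) : del G u v ≤ G := deleteEdges_le _

lemma del_comm (G : SimpleGraph V) (u v : V) : del G u v = del G v u := by
  unfold del; rw [Sym2.eq_swap]

lemma del_del_comm (G : SimpleGraph V) (u v p q : V) :
    del (del G u v) p q = del (del G p q) u v := by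
  unfold del
  rw [deleteEdges_deleteEdges, deleteEdges_deleteEdges, Set.union_comm]

lemma del_adj (G : SimpleGraph V) (u v x y : V) :
    (del G u v).Adj x y ↔ G.Adj x y ∧ s(x, y) ≠ s(u, v) := by
  unfold del
  rw [deleteEdges_adj]; simp

/-- Reachability in a graph in terms of the graph with one edge removed. -/
lemma reach_cases (G : SimpleGraph V) (p q x y : V) (h : G.Reachable x y) :
    (del G p q).Reachable x y ∨ ((del G p q).Reachable x p ∧ (del G p q).Reachable q y) ∨
      ((del G p q).Reachable x q ∧ (del G p q).Reachable p y) := by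
  rw [reachable_iff_reflTransGen] at h
  induction h with
  | refl => left; exact Reachable.refl _
  | tail hab hbc ih =>
    rename_i b c
    by_cases hbc' : s(b, c) = s(p, q)
    · rw [Sym2.eq_iff] at hbc'
      rcases hbc' with ⟨rfl, rfl⟩ | ⟨rfl, rfl⟩
      · rcases ih with h | ⟨h1, h2⟩ | ⟨h1, h2⟩
        · right; left; exact ⟨h, Reachable.refl _⟩
        · right; left; exact ⟨h1, Reachable.refl _⟩
        · left; exact h1
      · rcases ih with h | ⟨h1, h2⟩ | ⟨h1, h2⟩
        · right; right; exact ⟨h, Reachable.refl _⟩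
        · left; exact h1
        · right; right; exact ⟨h1, Reachable.refl _⟩
    · have hadj : (del G p q).Reachable b c := by
        apply Adj.reachable
        rw [del_adj]; exact ⟨hbc, hbc'⟩
      rcases ih with h | ⟨h1, h2⟩ | ⟨h1, h2⟩
      · left; exact h.trans hadj
      · right; left; exact ⟨h1, h2.trans hadj⟩
      · right; right; exact ⟨h1, h2.trans hadj⟩

lemma del_sup_edge (H : SimpleGraph V) (u v : V) (h : ¬ H.Reachable u v) :
    del (H ⊔ edge u v) u v = H := by
  ext x y
  rw [del_adj, sup_adj, edge_adj]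
  constructor
  · rintro ⟨h1 | ⟨h1, h2⟩, h3⟩
    · exact h1
    · exfalso; apply h3; rw [Sym2.eq_iff]; tauto
  · intro h1
    refine ⟨Or.inl h1, ?_⟩
    intro h2
    rw [Sym2.eq_iff] at h2
    rcases h2 with ⟨rfl, rfl⟩ | ⟨rfl, rfl⟩
    · exact h h1.reachable
    · exact h h1.reachable.symm

lemma sup_edge_del (G : SimpleGraph V) (u v : V) (h : G.Adj u v) :
    del G u v ⊔ edge u v = G := by
  ext x y
  rw [sup_adj, del_adj, edge_adj]
  constructor
  · rintro (⟨h1, h2⟩ | ⟨h1 | h1, h2⟩)
    · exact h1
    · rcases h1 with ⟨rfl, rfl⟩; exact h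
    · rcases h1 with ⟨rfl, rfl⟩; exact h.symm
  · intro h1
    by_cases h2 : s(x, y) = s(u, v)
    · right
      rw [Sym2.eq_iff] at h2
      exact ⟨h2, h1.ne⟩
    · left; exact ⟨h1, h2⟩


section Fin

variable [Fintype V]

open Classical in
/-- The vertices of the component of `v`. -/
noncomputable def comp (G : SimpleGraph V) (v : V) : Finset V :=
  Finset.univ.filter (fun w => G.Reachable v w)

open Classical in
/-- Ordered pairs `(u, v)` such that `uv` is an edge of `G` whose removal separates `u` from `v`. -/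
noncomputable def bd (G : SimpleGraph V) : Finset (V × V) :=
  Finset.univ.filter (fun d => G.Adj d.1 d.2 ∧ ¬ (del G d.1 d.2).Reachable d.1 d.2)

/-- The side of `d.2` when the bridge `d` is removed. -/
noncomputable def side (G : SimpleGraph V) (d : V × V) : Finset V := comp (del G d.1 d.2) d.2

open Classical in
/-- Ordered pairs of vertices in different components. -/
noncomputable def nonr (G : SimpleGraph V) : Finset (V × V) :=
  Finset.univ.filter (fun d => ¬ G.Reachable d.1 d.2)

@[simp] lemma mem_comp (G : SimpleGraph V) (v w : V) : w ∈ comp G v ↔ G.Reachable v w := by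
  simp [comp]

@[simp] lemma mem_bd (G : SimpleGraph V) (d : V × V) :
    d ∈ bd G ↔ G.Adj d.1 d.2 ∧ ¬ (del G d.1 d.2).Reachable d.1 d.2 := by
  simp [bd]

@[simp] lemma mem_nonr (G : SimpleGraph V) (d : V × V) :
    d ∈ nonr G ↔ ¬ G.Reachable d.1 d.2 := by
  simp [nonr]

lemma mem_side (G : SimpleGraph V) (d : V × V) (w : V) :
    w ∈ side G d ↔ (del G d.1 d.2).Reachable d.2 w := by
  simp [side]

lemma comp_eq_of_reachable (G : SimpleGraph V) {u v : V} (h : G.Reachable u v) :
    comp G u = comp G v := by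
  ext w
  simp only [mem_comp]
  exact ⟨fun h1 => h.symm.trans h1, fun h1 => h.trans h1⟩

lemma comp_card_pos (G : SimpleGraph V) (v : V) : 0 < (comp G v).card :=
  Finset.card_pos.mpr ⟨v, by simp⟩

/-- A set of graphs is bridge-addable when it is closed under adding an edge between two
components. -/
def BridgeAddable (A : Set (SimpleGraph V)) : Prop :=
  ∀ G ∈ A, ∀ u v : V, ¬ G.Reachable u v → G ⊔ edge u v ∈ A

open Classical in
/-- The basic double counting identity. -/
lemma double_count (A : Finset (SimpleGraph V)) (hA : BridgeAddable (A : Set (SimpleGraph V)))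
    (F : SimpleGraph V → V × V → ℝ) :
    ∑ H ∈ A, ∑ d ∈ nonr H, F (H ⊔ edge d.1 d.2) d =
      ∑ G ∈ A, ∑ d ∈ (bd G).filter (fun d => del G d.1 d.2 ∈ A), F G d := by
  rw [Finset.sum_sigma', Finset.sum_sigma']
  refine Finset.sum_bij' (fun x _ => ⟨x.1 ⊔ edge x.2.1 x.2.2, x.2⟩)
    (fun x _ => ⟨del x.1 x.2.1 x.2.2, x.2⟩) ?_ ?_ ?_ ?_ ?_
  · rintro ⟨H, u, v⟩ hx
    simp only [mem_sigma, mem_nonr] at hx
    obtain ⟨h1, h2⟩ := hx
    simp only [mem_sigma, mem_filter, mem_bd]
    refine ⟨hA H h1 u v h2, ⟨?_, ?_⟩, ?_⟩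
    · rw [sup_adj, edge_adj]
      right
      refine ⟨Or.inl ⟨rfl, rfl⟩, ?_⟩
      rintro rfl
      exact h2 (Reachable.refl _)
    · rw [del_sup_edge H u v h2]; exact h2
    · rw [del_sup_edge H u v h2]; exact h1
  · rintro ⟨G, u, v⟩ hx
    simp only [mem_sigma, mem_filter, mem_bd] at hx
    simp only [mem_sigma, mem_nonr]
    exact ⟨hx.2.2, hx.2.1.2⟩
  · rintro ⟨H, u, v⟩ hx
    simp only [mem_sigma, mem_nonr] at hx
    simp only [del_sup_edge H u v hx.2]
  · rintro ⟨G, u, v⟩ hx
    simp only [mem_sigma, mem_filter, mem_bd] at hx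
    simp only [sup_edge_del G u v hx.2.1.1]
  · rintro ⟨H, u, v⟩ hx
    rfl

/-- A graph on `n` vertices has at most `n` bridges, hence at most `2 n` oriented bridges. -/
lemma card_bd_le (G : SimpleGraph V) : (bd G).card ≤ 2 * Fintype.card V := by
  classical
  rcases isEmpty_or_nonempty V with hV | hV
  · simp [bd]
  let B : SimpleGraph V :=
    { Adj := fun x y => G.Adj x y ∧ ¬ (del G x y).Reachable x y
      symm := by
        constructor
        rintro x y ⟨h1, h2⟩
        exact ⟨h1.symm, fun h3 => h2 (by rw [del_comm]; exact h3.symm)⟩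
      loopless := by
        constructor
        rintro x ⟨h1, _⟩
        exact G.irrefl h1 }
  have hBG : B ≤ G := fun x y h => h.1
  have hB : B.IsAcyclic := by
    rw [isAcyclic_iff_forall_isBridge]
    intro e he
    induction e with
    | h x y =>
      rw [isBridge_iff]
      intro h
      have h2 : B.Adj x y := he
      exact h2.2 (h.mono (deleteEdges_mono hBG))
  have htop : (⊤ : SimpleGraph V).Connected := connected_top
  obtain ⟨T, hT1, hT2, hT3⟩ := htop.exists_isTree_le_of_le_of_isAcyclic (le_top : B ≤ ⊤) hB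
  have h1 : (bd G).card ≤ (Finset.univ.filter fun (x, y) => T.Adj x y).card := by
    apply Finset.card_le_card
    rintro ⟨x, y⟩ h
    rw [mem_bd] at h
    simp only [mem_filter, mem_univ, true_and]
    exact hT1 (show B.Adj x y from h)
  have h3 := two_mul_card_edgeFinset T
  have h2 := hT3.card_edgeFinset
  have h4 : (Finset.univ.filter fun (x, y) => T.Adj x y).card = 2 * #T.edgeFinset := by
    convert h3.symm
  rw [h4] at h1
  omega

end Fin

end Pool.Agent.Lib.MP_572a82_pr
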