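import Pool.Agent.Lib.MP_572a82_pr.Lower

open SimpleGraph Finset

namespace Pool.Agent.Lib.MP_572a82_pr

variable {V : Type*} [Fintype V]

/-- The order of a largest component. -/
noncomputable def cm (G : SimpleGraph V) : ℕ := Finset.univ.sup (fun v => (comp G v).card)

lemma comp_le_cm (G : SimpleGraph V) (v : V) : (comp G v).card ≤ cm G :=
  Finset.le_sup (f := fun v => (comp G v).card) (Finset.mem_univ v)

lemma cm_le (G : SimpleGraph V) : cm G ≤ Fintype.card V :=
  Finset.sup_le (fun _ _ => Finset.card_le_univ _)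

lemma exists_cm (G : SimpleGraph V) [Nonempty V] : ∃ v, (comp G v).card = cm G := by
  obtain ⟨v, _, hv⟩ := Finset.exists_mem_eq_sup (Finset.univ : Finset V) Finset.univ_nonempty
    (fun v => (comp G v).card)
  exact ⟨v, hv.symm⟩

/-- Number of vertices outside a largest component. -/
noncomputable def fr (G : SimpleGraph V) : ℕ := Fintype.card V - cm G

open Classical in
lemma nonr_ge (H : SimpleGraph V) : Fintype.card V * fr H ≤ (nonr H).card := by
  have h1 : (nonr H).card = ∑ v : V, (Finset.univ.filter (fun w => ¬ H.Reachable v w)).card := by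
    rw [← Finset.card_sigma]
    refine Finset.card_bij' (fun d _ => ⟨d.1, d.2⟩) (fun x _ => (x.1, x.2)) ?_ ?_ ?_ ?_
    · intro d hd; simpa using hd
    · rintro ⟨v, u⟩ hx; simpa using hx
    · intro d hd; rfl
    · rintro ⟨v, u⟩ hx; rfl
  rw [h1, ← smul_eq_mul, ← Finset.card_univ, ← Finset.sum_const]
  apply Finset.sum_le_sum
  intro v _
  have h2 : (comp H v).card + (Finset.univ.filter (fun w => ¬ H.Reachable v w)).card =
      Fintype.card V := by
    unfold comp
    rw [Finset.card_filter_add_card_filter_not, Finset.card_univ]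
  have h3 := comp_le_cm H v
  unfold fr
  omega

open Classical in
lemma nonr_ge' (H : SimpleGraph V) [Nonempty V] :
    2 * (fr H * (Fintype.card V - fr H)) ≤ (nonr H).card := by
  obtain ⟨v, hv⟩ := exists_cm H
  have h0 := cm_le H
  have h1 : Fintype.card V - fr H = cm H := by unfold fr; omega
  have h2 : ((comp H v)ᶜ).card = fr H := by
    rw [Finset.card_compl, hv]; rfl
  have h3 : Disjoint ((comp H v)ᶜ ×ˢ (comp H v)) ((comp H v) ×ˢ (comp H v)ᶜ) := by
    rw [Finset.disjoint_left]
    rintro ⟨a, b⟩ h1 h2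
    rw [mem_product] at h1 h2
    exact (Finset.mem_compl.1 h1.1) h2.1
  have h4 : ((comp H v)ᶜ ×ˢ (comp H v)) ∪ ((comp H v) ×ˢ (comp H v)ᶜ) ⊆ nonr H := by
    rintro ⟨a, b⟩ h
    rw [mem_union, mem_product, mem_product] at h
    rw [mem_nonr]
    simp only [mem_compl, mem_comp] at h
    rcases h with ⟨h1, h2⟩ | ⟨h1, h2⟩
    · intro h3; exact h1 (h2.trans h3.symm)
    · intro h3; exact h2 (h1.trans h3)
  have h5 := Finset.card_le_card h4
  rw [card_union_of_disjoint h3, card_product, card_product, h2, hv] at h5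
  rw [h1]
  linarith [mul_comm (fr H) (cm H)]

open Classical in
lemma sum_nonr_indicator_le (A : Finset (SimpleGraph V))
    (hA : BridgeAddable (A : Set (SimpleGraph V))) (P : SimpleGraph V → Prop) :
    ∑ H ∈ A, (((nonr H).filter (fun d => P (H ⊔ edge d.1 d.2))).card : ℝ) ≤
      2 * (Fintype.card V : ℝ) * (A.filter P).card := by
  have h := double_count A hA (fun G _ => if P G then 1 else 0)
  have h1 : ∀ H ∈ A, ∑ d ∈ nonr H, (if P (H ⊔ edge d.1 d.2) then (1 : ℝ) else 0) =
      (((nonr H).filter (fun d => P (H ⊔ edge d.1 d.2))).card : ℝ) := by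
    intro H _
    rw [Finset.card_filter]
    push_cast
    rfl
  rw [Finset.sum_congr rfl h1] at h
  rw [h, Finset.card_filter]
  push_cast
  rw [Finset.mul_sum]
  apply Finset.sum_le_sum
  intro G _
  by_cases hP : P G
  · simp only [if_pos hP, Finset.sum_const, nsmul_eq_mul, mul_one]
    have h2 : ((bd G).filter (fun d => del G d.1 d.2 ∈ A)).card ≤ 2 * Fintype.card V :=
      (Finset.card_filter_le _ _).trans (card_bd_le G)
    exact_mod_cast h2
  · simp only [if_neg hP, Finset.sum_const_zero, mul_zero, le_refl]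

lemma sum_nonr_le (A : Finset (SimpleGraph V))
    (hA : BridgeAddable (A : Set (SimpleGraph V))) :
    ∑ H ∈ A, ((nonr H).card : ℝ) ≤ 2 * (Fintype.card V : ℝ) * A.card := by
  classical
  have h := sum_nonr_indicator_le A hA (fun _ => True)
  simpa using h

omit [Fintype V] in
lemma reach_sup (H : SimpleGraph V) (u v x y : V) (huv : ¬ H.Reachable u v)
    (h : (H ⊔ edge u v).Reachable x y) :
    H.Reachable x y ∨ (H.Reachable x u ∧ H.Reachable v y) ∨
      (H.Reachable x v ∧ H.Reachable u y) := by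
  have := reach_cases (H ⊔ edge u v) u v x y h
  rwa [del_sup_edge H u v huv] at this

open Classical in
/-- If no two components have at least `s` vertices, joining two components increases the
maximal order by at most `s`. -/
lemma cm_sup_le (H : SimpleGraph V) (s : ℕ) (hs : Om H s = ∅) (u v : V)
    (huv : ¬ H.Reachable u v) : cm (H ⊔ edge u v) ≤ cm H + s := by
  have hsm : (comp H u).card ≤ s ∨ (comp H v).card ≤ s := by
    by_contra hcon
    push Not at hcon
    have : (u, v) ∈ Om H s := by
      unfold Om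
      rw [mem_filter, mem_nonr]
      exact ⟨huv, hcon.1.le, hcon.2.le⟩
    rw [hs] at this
    simp at this
  have hu := comp_le_cm H u
  have hv := comp_le_cm H v
  have hUV : (comp H u ∪ comp H v).card ≤ cm H + s := by
    refine (card_union_le _ _).trans ?_
    omega
  apply Finset.sup_le
  intro w _
  by_cases hw : H.Reachable w u ∨ H.Reachable w v
  · refine le_trans (card_le_card ?_) hUV
    intro y hy
    rw [mem_comp] at hy
    rw [mem_union, mem_comp, mem_comp]
    rcases reach_sup H u v w y huv hy with h | ⟨_, h⟩ | ⟨_, h⟩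
    · rcases hw with h1 | h1
      · left; exact h1.symm.trans h
      · right; exact h1.symm.trans h
    · right; exact h
    · left; exact h
  · push Not at hw
    refine le_trans (card_le_card ?_) ((comp_le_cm H w).trans (Nat.le_add_right _ _))
    intro y hy
    rw [mem_comp] at hy ⊢
    rcases reach_sup H u v w y huv hy with h | ⟨h, _⟩ | ⟨h, _⟩
    · exact h
    · exact absurd h hw.1
    · exact absurd h hw.2

open Classical in
lemma Om_card_ge (H : SimpleGraph V) (s : ℕ) (h : (Om H s).Nonempty) :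
    s ^ 2 ≤ (Om H s).card := by
  obtain ⟨⟨u, v⟩, huv⟩ := h
  have huv' := huv
  unfold Om at huv'
  rw [mem_filter, mem_nonr] at huv'
  obtain ⟨h1, h2, h3⟩ := huv'
  simp only at h1 h2 h3
  calc s ^ 2 = s * s := sq s
    _ ≤ (comp H u).card * (comp H v).card := Nat.mul_le_mul h2 h3
    _ = ((comp H u) ×ˢ (comp H v)).card := (card_product _ _).symm
    _ ≤ _ := by
      apply card_le_card
      rintro ⟨a, b⟩ hab
      rw [mem_product, mem_comp, mem_comp] at hab
      unfold Om
      rw [mem_filter, mem_nonr]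
      refine ⟨fun h => h1 (hab.1.trans (h.trans hab.2.symm)), ?_, ?_⟩
      · simp only; rw [← comp_eq_of_reachable H hab.1]; exact h2
      · simp only; rw [← comp_eq_of_reachable H hab.2]; exact h3

open Classical in
/-- The quantitative form of the main theorem. -/
theorem main_bound (A : Finset (SimpleGraph V)) (hA : BridgeAddable (A : Set (SimpleGraph V)))
    (ε : ℝ) (hε : 0 < ε) (hε1 : ε < 1) (J : ℕ) (hJ : 2 ^ J ≤ Fintype.card V)
    (hn4 : 4 ≤ ε * Fintype.card V) :
    ∑ G ∈ A, (fr G : ℝ) ≤ A.card * (1 / (1 - ε) + 8 / (ε ^ 2 * Fintype.card V) +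
      24 * (4 / ε) ^ 7 / (J + 1)) := by
  set n := Fintype.card V with hn
  have hn0 : 0 < n := lt_of_lt_of_le (by positivity) hJ
  have hn' : (0 : ℝ) < n := by exact_mod_cast hn0
  have : Nonempty V := Fintype.card_pos_iff.mp hn0
  set s : ℕ := ⌊ε * n / 2⌋₊ with hs
  have hs1 : (s : ℝ) ≤ ε * n / 2 := Nat.floor_le (by positivity)
  have hs2 : ε * n / 4 ≤ s := by
    have := Nat.lt_floor_add_one (ε * n / 2)
    rw [← hs] at this
    linarith
  have hs0' : (0 : ℝ) < s := by nlinarith
  have hs0 : 0 < s := by exact_mod_cast hs0'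
  have hsn' : (s : ℝ) ≤ n := by nlinarith
  have hsn : s ≤ n := by exact_mod_cast hsn'
  set N : ℝ := (A.card : ℝ) with hN
  have hN0 : 0 ≤ N := by positivity
  have hfr : ∀ G : SimpleGraph V, (fr G : ℝ) ≤ n := by
    intro G
    have : fr G ≤ n := Nat.sub_le _ _
    exact_mod_cast this
  have hnr : ∑ H ∈ A, ((nonr H).card : ℝ) ≤ 2 * n * N := sum_nonr_le A hA
  -- the three parts
  set A1 := A.filter (fun G => (fr G : ℝ) < ε * n) with hA1
  set A2 := A.filter (fun G => ε * n ≤ (fr G : ℝ) ∧ Om G s = ∅) with hA2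
  set A3 := A.filter (fun G => (Om G s).Nonempty) with hA3
  -- part 1
  have p1 : ∑ G ∈ A1, (fr G : ℝ) ≤ N * (1 / (1 - ε)) := by
    have h1 : ∑ G ∈ A1, (2 * n * (1 - ε)) * (fr G : ℝ) ≤ 2 * n * N := by
      calc ∑ G ∈ A1, (2 * n * (1 - ε)) * (fr G : ℝ) ≤ ∑ G ∈ A1, ((nonr G).card : ℝ) := by
            apply Finset.sum_le_sum
            intro G hG
            have h2 := (mem_filter.1 hG).2
            have h3 : 2 * (fr G * (n - fr G)) ≤ (nonr G).card := nonr_ge' G
            have h4 : fr G ≤ n := Nat.sub_le _ _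
            have h5 : (2 : ℝ) * (fr G * (n - fr G)) ≤ (nonr G).card := by
              have : ((2 * (fr G * (n - fr G)) : ℕ) : ℝ) ≤ (nonr G).card := by exact_mod_cast h3
              rw [Nat.cast_mul, Nat.cast_mul, Nat.cast_sub h4] at this
              exact_mod_cast this
            have h6 : (0 : ℝ) ≤ fr G := by positivity
            nlinarith
        _ ≤ ∑ G ∈ A, ((nonr G).card : ℝ) :=
            Finset.sum_le_sum_of_subset_of_nonneg (Finset.filter_subset _ _)
              (fun _ _ _ => by positivity)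
        _ ≤ _ := hnr
    rw [← Finset.mul_sum] at h1
    rw [mul_one_div, le_div_iff₀ (by linarith)]
    have h2 : 2 * (n : ℝ) * ((∑ G ∈ A1, (fr G : ℝ)) * (1 - ε)) ≤ 2 * n * N := by
      calc _ = 2 * n * (1 - ε) * ∑ G ∈ A1, (fr G : ℝ) := by ring
        _ ≤ _ := h1
    exact le_of_mul_le_mul_left h2 (by positivity)
  -- part 2
  have p2 : (A2.card : ℝ) * (ε ^ 2 * n ^ 2) ≤ 8 * N := by
    -- number of graphs with large fragment
    have h1 : ((A.filter (fun G => ε * n / 2 ≤ (fr G : ℝ))).card : ℝ) * (ε * n) ≤ 4 * N := by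
      have h2 : ∑ G ∈ A.filter (fun G => ε * n / 2 ≤ (fr G : ℝ)), (ε * n / 2 * n : ℝ) ≤
          2 * n * N := by
        calc _ ≤ ∑ G ∈ A.filter (fun G => ε * n / 2 ≤ (fr G : ℝ)), ((nonr G).card : ℝ) := by
              apply Finset.sum_le_sum
              intro G hG
              have h2 := (mem_filter.1 hG).2
              have h3 : n * fr G ≤ (nonr G).card := nonr_ge G
              have h4 : (n : ℝ) * fr G ≤ (nonr G).card := by exact_mod_cast h3
              nlinarith
          _ ≤ ∑ G ∈ A, ((nonr G).card : ℝ) :=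
            Finset.sum_le_sum_of_subset_of_nonneg (Finset.filter_subset _ _)
              (fun _ _ _ => by positivity)
          _ ≤ _ := hnr
      rw [Finset.sum_const, nsmul_eq_mul] at h2
      have h3 : ((n : ℝ) / 2) * (((A.filter (fun G => ε * n / 2 ≤ (fr G : ℝ))).card : ℝ) *
          (ε * n)) ≤ ((n : ℝ) / 2) * (4 * N) := by
        calc _ = ((A.filter (fun G => ε * n / 2 ≤ (fr G : ℝ))).card : ℝ) * (ε * n / 2 * n) := by
              ring
          _ ≤ _ := h2
          _ = _ := by ring
      exact le_of_mul_le_mul_left h3 (by positivity)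
    have h2 : (A2.card : ℝ) * (ε * n ^ 2) ≤
        2 * n * ((A.filter (fun G => ε * n / 2 ≤ (fr G : ℝ))).card : ℝ) := by
      have h3 := sum_nonr_indicator_le A hA (fun G => ε * n / 2 ≤ (fr G : ℝ))
      refine le_trans ?_ h3
      calc (A2.card : ℝ) * (ε * n ^ 2) = ∑ H ∈ A2, (ε * n ^ 2 : ℝ) := by
            rw [Finset.sum_const, nsmul_eq_mul]
        _ ≤ ∑ H ∈ A2, (((nonr H).filter
            (fun d => ε * n / 2 ≤ (fr (H ⊔ edge d.1 d.2) : ℝ))).card : ℝ) := by
            apply Finset.sum_le_sum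
            intro H hH
            obtain ⟨h4, h5⟩ := (mem_filter.1 hH).2
            have h6 : (nonr H).filter (fun d => ε * n / 2 ≤ (fr (H ⊔ edge d.1 d.2) : ℝ)) =
                nonr H := by
              apply Finset.filter_true_of_mem
              intro d hd
              rw [mem_nonr] at hd
              have h7 := cm_sup_le H s h5 d.1 d.2 hd
              have h8 : fr H ≤ fr (H ⊔ edge d.1 d.2) + s := by unfold fr; omega
              have h9 : (fr H : ℝ) ≤ fr (H ⊔ edge d.1 d.2) + s := by exact_mod_cast h8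
              linarith
            rw [h6]
            have h7 : n * fr H ≤ (nonr H).card := nonr_ge H
            have h8 : (n : ℝ) * fr H ≤ (nonr H).card := by exact_mod_cast h7
            nlinarith
        _ ≤ _ := Finset.sum_le_sum_of_subset_of_nonneg (Finset.filter_subset _ _)
              (fun _ _ _ => by positivity)
    have h3 : (n : ℝ) * ((A2.card : ℝ) * (ε ^ 2 * n ^ 2)) ≤ n * (8 * N) := by
      calc (n : ℝ) * ((A2.card : ℝ) * (ε ^ 2 * n ^ 2)) =
            ((A2.card : ℝ) * (ε * n ^ 2)) * (ε * n) := by ring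
        _ ≤ (2 * n * ((A.filter (fun G => ε * n / 2 ≤ (fr G : ℝ))).card : ℝ)) * (ε * n) :=
            mul_le_mul_of_nonneg_right h2 (by positivity)
        _ = 2 * n * (((A.filter (fun G => ε * n / 2 ≤ (fr G : ℝ))).card : ℝ) * (ε * n)) := by
            ring
        _ ≤ 2 * n * (4 * N) := mul_le_mul_of_nonneg_left h1 (by positivity)
        _ = _ := by ring
    exact le_of_mul_le_mul_left h3 hn'
  -- part 3
  have p3 : (A3.card : ℝ) * ((J + 1) * s ^ 7) ≤ 24 * n ^ 6 * N := by
    have h1 := sum_SS_le A hA s J hs0 hsn hJ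
    have h2 : (A3.card : ℝ) * s ^ 2 ≤ ∑ H ∈ A, ((Om H s).card : ℝ) := by
      calc (A3.card : ℝ) * s ^ 2 = ∑ H ∈ A3, (s ^ 2 : ℝ) := by
            rw [Finset.sum_const, nsmul_eq_mul]
        _ ≤ ∑ H ∈ A3, ((Om H s).card : ℝ) := by
            apply Finset.sum_le_sum
            intro H hH
            have := Om_card_ge H s (mem_filter.1 hH).2
            exact_mod_cast this
        _ ≤ _ := Finset.sum_le_sum_of_subset_of_nonneg (Finset.filter_subset _ _)
              (fun _ _ _ => by positivity)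
    calc (A3.card : ℝ) * ((J + 1) * s ^ 7) = (J + 1) * s ^ 5 * ((A3.card : ℝ) * s ^ 2) := by ring
      _ ≤ (J + 1) * s ^ 5 * ∑ H ∈ A, ((Om H s).card : ℝ) :=
          mul_le_mul_of_nonneg_left h2 (by positivity)
      _ ≤ _ := h1
  -- assemble
  have hsplit : ∑ G ∈ A, (fr G : ℝ) ≤ ∑ G ∈ A1, (fr G : ℝ) + n * A2.card + n * A3.card := by
    have h1 : ∀ G ∈ A, (fr G : ℝ) ≤ (if (fr G : ℝ) < ε * n then (fr G : ℝ) else 0) +
        (if (ε * n ≤ (fr G : ℝ) ∧ Om G s = ∅) then (n : ℝ) else 0) +
        (if (Om G s).Nonempty then (n : ℝ) else 0) := by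
      intro G _
      by_cases c1 : (fr G : ℝ) < ε * n
      · rw [if_pos c1]
        have h2 : (0 : ℝ) ≤ if (ε * n ≤ (fr G : ℝ) ∧ Om G s = ∅) then (n : ℝ) else 0 := by
          split_ifs <;> positivity
        have h3 : (0 : ℝ) ≤ if (Om G s).Nonempty then (n : ℝ) else 0 := by
          split_ifs <;> positivity
        linarith
      · rw [if_neg c1]
        have c1' := not_lt.1 c1
        rcases Finset.eq_empty_or_nonempty (Om G s) with c2 | c2
        · rw [if_pos ⟨c1', c2⟩, if_neg (by rw [c2]; simp)]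
          have := hfr G
          linarith
        · rw [if_pos c2, if_neg (fun h => by rw [h.2] at c2; simp at c2)]
          have := hfr G
          linarith
    refine (Finset.sum_le_sum h1).trans ?_
    rw [Finset.sum_add_distrib, Finset.sum_add_distrib, ← Finset.sum_filter,
      ← Finset.sum_filter, ← Finset.sum_filter, Finset.sum_const, Finset.sum_const,
      nsmul_eq_mul, nsmul_eq_mul]
    rw [hA1, hA2, hA3]
    linarith
  have q2 : (n : ℝ) * A2.card ≤ N * (8 / (ε ^ 2 * n)) := by
    rw [mul_div_assoc', le_div_iff₀ (by positivity)]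
    calc (n : ℝ) * A2.card * (ε ^ 2 * n) = (A2.card : ℝ) * (ε ^ 2 * n ^ 2) := by ring
      _ ≤ 8 * N := p2
      _ = _ := by ring
  have q3 : (n : ℝ) * A3.card ≤ N * (24 * (4 / ε) ^ 7 / (J + 1)) := by
    have h1 : (n : ℝ) ≤ 4 / ε * s := by
      rw [div_mul_eq_mul_div, le_div_iff₀ hε]; linarith
    have h2 : (n : ℝ) ^ 7 ≤ (4 / ε) ^ 7 * s ^ 7 := by
      rw [← mul_pow]
      exact pow_le_pow_left₀ hn'.le h1 7
    rw [mul_div_assoc', le_div_iff₀ (by positivity)]
    have h3 : (n : ℝ) * A3.card * (J + 1) * s ^ 7 ≤ N * (24 * (4 / ε) ^ 7) * s ^ 7 := by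
      calc (n : ℝ) * A3.card * (J + 1) * s ^ 7 = n * ((A3.card : ℝ) * ((J + 1) * s ^ 7)) := by
            ring
        _ ≤ n * (24 * n ^ 6 * N) := mul_le_mul_of_nonneg_left p3 hn'.le
        _ = (24 * N) * (n : ℝ) ^ 7 := by ring
        _ ≤ (24 * N) * ((4 / ε) ^ 7 * s ^ 7) := mul_le_mul_of_nonneg_left h2 (by positivity)
        _ = _ := by ring
    exact le_of_mul_le_mul_right h3 (by positivity)
  calc ∑ G ∈ A, (fr G : ℝ) ≤ ∑ G ∈ A1, (fr G : ℝ) + n * A2.card + n * A3.card := hsplit
    _ ≤ N * (1 / (1 - ε)) + N * (8 / (ε ^ 2 * n)) + N * (24 * (4 / ε) ^ 7 / (J + 1)) := by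
        linarith
    _ = _ := by ring

end Pool.Agent.Lib.MP_572a82_pr
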