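import Mathlib

open Finset

namespace Pool.Agent.Lib.MP_572a82_pr

lemma dyadic_sum_le (m : ℕ) (hm : 1 ≤ m) (J : ℕ) :
    ((2 : ℝ) ^ J ≤ m → ∑ j ∈ range (J + 1), (if (m : ℝ) < 2 ^ j then ((2 : ℝ) ^ j)⁻¹ else 0) = 0) ∧
    ((m : ℝ) < 2 ^ J → ∑ j ∈ range (J + 1), (if (m : ℝ) < 2 ^ j then ((2 : ℝ) ^ j)⁻¹ else 0)
      ≤ 2 / m - ((2 : ℝ) ^ J)⁻¹) := by
  have hm0 : (0 : ℝ) < m := by exact_mod_cast hm
  induction J with
  | zero =>
    constructor
    · intro h
      simp only [zero_add, range_one, sum_singleton, pow_zero]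
      rw [if_neg]
      exact not_lt.mpr h
    · intro h
      exfalso
      have : (1 : ℝ) ≤ m := by exact_mod_cast hm
      simp at h
      omega
  | succ J ih =>
    obtain ⟨ih1, ih2⟩ := ih
    have hpos : (0 : ℝ) < 2 ^ J := by positivity
    have h2 : (2 : ℝ) ^ (J + 1) = 2 * 2 ^ J := by ring
    constructor
    · intro h
      rw [sum_range_succ, if_neg (not_lt.mpr h), ih1 (by linarith)]
      simp
    · intro h
      rw [sum_range_succ, if_pos h]
      have h3 : ((2 : ℝ) ^ (J + 1))⁻¹ = ((2 : ℝ) ^ J)⁻¹ / 2 := by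
        rw [h2]; field_simp
      rcases le_or_gt ((2 : ℝ) ^ J) m with h4 | h4
      · rw [ih1 h4]
        have h5 : ((2 : ℝ) ^ (J + 1))⁻¹ ≤ 1 / m := by
          rw [← one_div]
          exact one_div_le_one_div_of_le hm0 h.le
        have h6 : (2 : ℝ) / m = 1 / m + 1 / m := by ring
        linarith
      · have := ih2 h4
        linarith

lemma dyadic_sum_le' (m : ℕ) (hm : 1 ≤ m) (J : ℕ) :
    ∑ j ∈ range (J + 1), (if (m : ℝ) < 2 ^ j then ((2 : ℝ) ^ j)⁻¹ else 0) ≤ 2 / m := by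
  have hm0 : (0 : ℝ) < m := by exact_mod_cast hm
  rcases le_or_gt ((2 : ℝ) ^ J) m with h4 | h4
  · rw [(dyadic_sum_le m hm J).1 h4]; positivity
  · have h5 := (dyadic_sum_le m hm J).2 h4
    have : (0 : ℝ) < ((2 : ℝ) ^ J)⁻¹ := by positivity
    linarith

lemma real_aux (k S n M : ℝ) (hn : 0 < n) (hM : 0 < M) (h : k ^ 2 ≤ 2 * n / M * S) :
    k ^ 2 * M / (2 * n) ≤ S := by
  rw [div_le_iff₀ (by positivity)]
  calc k ^ 2 * M ≤ (2 * n / M * S) * M := mul_le_mul_of_nonneg_right h hM.le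
    _ = S * (2 * n) := by field_simp

/-- Pigeonhole count of close pairs. -/
lemma close_pairs (P : Finset ℕ) (n M : ℕ) (hM : 0 < M) (hMn : M ≤ n) (hP : ∀ x ∈ P, x ≤ n) :
    ((P.card : ℝ) ^ 2 * M / (2 * n) - P.card) / 2 ≤
      (((P ×ˢ P).filter (fun z => z.1 < z.2 ∧ ((z.2 : ℝ) - z.1 < M))).card : ℝ) := by
  have hn : 0 < n := lt_of_lt_of_le hM hMn
  -- fibers
  set N : ℕ → ℕ := fun c => (P.filter (fun x => x / M = c)).card with hN
  have h1 : P.card = ∑ c ∈ range (n / M + 1), N c := by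
    apply Finset.card_eq_sum_card_fiberwise
    intro x hx
    simp only [coe_range, Set.mem_Iio]
    exact Nat.lt_succ_of_le (Nat.div_le_div_right (hP x hx))
  have h2 : (P.card : ℝ) ^ 2 ≤ ((n / M + 1 : ℕ) : ℝ) * ∑ c ∈ range (n / M + 1), (N c : ℝ) ^ 2 := by
    have := sq_sum_le_card_mul_sum_sq (s := range (n / M + 1)) (f := fun c => (N c : ℝ))
    rw [card_range] at this
    rw [h1]
    push_cast at this ⊢
    exact this
  have h3 : ∑ c ∈ range (n / M + 1), (N c) ^ 2 =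
      ((P ×ˢ P).filter (fun z => z.1 / M = z.2 / M)).card := by
    have : ((P ×ˢ P).filter (fun z => z.1 / M = z.2 / M)).card =
        ∑ c ∈ range (n / M + 1),
          (((P ×ˢ P).filter (fun z => z.1 / M = z.2 / M)).filter (fun z => z.1 / M = c)).card := by
      apply Finset.card_eq_sum_card_fiberwise
      intro z hz
      rw [mem_coe, mem_filter, mem_product] at hz
      simp only [coe_range, Set.mem_Iio]
      exact Nat.lt_succ_of_le (Nat.div_le_div_right (hP z.1 hz.1.1))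
    rw [this]
    apply Finset.sum_congr rfl
    intro c _
    rw [hN, sq, ← card_product]
    congr 1
    ext z
    simp only [mem_product, mem_filter]
    constructor
    · rintro ⟨⟨h1, h2⟩, h3, h4⟩
      exact ⟨⟨⟨h1, h3⟩, by rw [h2, h4]⟩, h2⟩
    · rintro ⟨⟨⟨h1, h3⟩, h5⟩, h2⟩
      exact ⟨⟨h1, h2⟩, h3, by rw [← h5, h2]⟩
  -- split the pairs
  have h4 : ((P ×ˢ P).filter (fun z => z.1 / M = z.2 / M)).card ≤
      P.card + 2 * ((P ×ˢ P).filter (fun z => z.1 < z.2 ∧ ((z.2 : ℝ) - z.1 < M))).card := by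
    have hsub : (P ×ˢ P).filter (fun z => z.1 / M = z.2 / M) ⊆
        (P.image (fun x => (x, x)) ∪
          (P ×ˢ P).filter (fun z => z.1 < z.2 ∧ ((z.2 : ℝ) - z.1 < M))) ∪
          ((P ×ˢ P).filter (fun z => z.1 < z.2 ∧ ((z.2 : ℝ) - z.1 < M))).image Prod.swap := by
      intro z hz
      obtain ⟨x, y⟩ := z
      simp only [mem_filter, mem_product] at hz
      obtain ⟨⟨hx, hy⟩, hxy⟩ := hz
      have key : ∀ x y : ℕ, x < y → x / M = y / M → (y : ℝ) - x < M := by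
        intro x y hlt he
        have h5 := Nat.div_add_mod x M
        have h6 := Nat.div_add_mod y M
        have h7 := Nat.mod_lt y hM
        rw [he] at h5
        have h8 : y < x + M := by omega
        have h9 : (y : ℝ) < x + M := by exact_mod_cast h8
        linarith
      rw [mem_union, mem_union, mem_image, mem_image, mem_filter, mem_product]
      rcases lt_trichotomy x y with h | h | h
      · left; right
        exact ⟨⟨hx, hy⟩, h, key x y h hxy⟩
      · left; left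
        exact ⟨x, hx, by rw [h]⟩
      · right
        refine ⟨(y, x), ?_, rfl⟩
        rw [mem_filter, mem_product]
        exact ⟨⟨hy, hx⟩, h, key y x h hxy.symm⟩
    calc _ ≤ _ := card_le_card hsub
      _ ≤ _ := card_union_le _ _
      _ ≤ _ := Nat.add_le_add_right (card_union_le _ _) _
      _ ≤ _ := by
        have h5 : (P.image (fun x => (x, x))).card ≤ P.card := card_image_le
        have h6 : (((P ×ˢ P).filter (fun z => z.1 < z.2 ∧ ((z.2 : ℝ) - z.1 < M))).image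
          Prod.swap).card ≤ _ := card_image_le
        omega
  have h5 : ((n / M + 1 : ℕ) : ℝ) ≤ 2 * n / M := by
    rw [le_div_iff₀ (by exact_mod_cast hM)]
    have : (n / M + 1) * M ≤ 2 * n := by
      have := Nat.div_mul_le_self n M
      nlinarith
    exact_mod_cast this
  have h6 : (∑ c ∈ range (n / M + 1), (N c : ℝ) ^ 2) ≤
      P.card + 2 * (((P ×ˢ P).filter (fun z => z.1 < z.2 ∧ ((z.2 : ℝ) - z.1 < M))).card : ℝ) := by
    have := h3 ▸ h4
    exact_mod_cast this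
  have hS : 0 ≤ ∑ c ∈ range (n / M + 1), (N c : ℝ) ^ 2 :=
    Finset.sum_nonneg (fun _ _ => sq_nonneg _)
  have h7 : (P.card : ℝ) ^ 2 ≤ 2 * n / M * ∑ c ∈ range (n / M + 1), (N c : ℝ) ^ 2 :=
    h2.trans (mul_le_mul_of_nonneg_right h5 hS)
  have hn' : (0 : ℝ) < n := by exact_mod_cast hn
  have hM' : (0 : ℝ) < M := by exact_mod_cast hM
  have h8 : (P.card : ℝ) ^ 2 * M / (2 * n) ≤ ∑ c ∈ range (n / M + 1), (N c : ℝ) ^ 2 :=
    real_aux _ _ _ _ hn' hM' h7
  linarith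

/-- A set of `k` integers in `[0, n]` has a logarithmically large energy. -/
lemma energy (P : Finset ℕ) (n J : ℕ) (hJ : 2 ^ J ≤ n) (hP : ∀ x ∈ P, x ≤ n) :
    (J + 1 : ℝ) * (P.card : ℝ) ^ 2 / (8 * n) - P.card / 2 ≤
      ∑ z ∈ (P ×ˢ P).filter (fun z => z.1 < z.2), 1 / ((z.2 : ℝ) - z.1) := by
  have hn : 0 < n := lt_of_lt_of_le (by positivity) hJ
  have hn' : (0 : ℝ) < n := by exact_mod_cast hn
  have h1 : ∀ z ∈ (P ×ˢ P).filter (fun z => z.1 < z.2),
      (1 / 2) * ∑ j ∈ range (J + 1), (if ((z.2 : ℝ) - z.1) < 2 ^ j then ((2 : ℝ) ^ j)⁻¹ else 0) ≤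
        1 / ((z.2 : ℝ) - z.1) := by
    intro z hz
    simp only [mem_filter, mem_product] at hz
    have hm : 1 ≤ z.2 - z.1 := by omega
    have := dyadic_sum_le' (z.2 - z.1) hm J
    rw [Nat.cast_sub hz.2.le] at this
    have h5 : (2 : ℝ) / ((z.2 : ℝ) - z.1) = 2 * (1 / ((z.2 : ℝ) - z.1)) := by ring
    linarith
  refine le_trans ?_ (Finset.sum_le_sum h1)
  rw [← Finset.mul_sum, Finset.sum_comm]
  have h2 : ∀ j ∈ range (J + 1),
      ((2 : ℝ) ^ j)⁻¹ * (((P.card : ℝ) ^ 2 * (2 ^ j : ℝ) / (2 * n) - P.card) / 2) ≤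
      ∑ z ∈ (P ×ˢ P).filter (fun z => z.1 < z.2),
        (if ((z.2 : ℝ) - z.1) < 2 ^ j then ((2 : ℝ) ^ j)⁻¹ else 0) := by
    intro j hj
    rw [← Finset.sum_filter, Finset.filter_filter, Finset.sum_const, nsmul_eq_mul, mul_comm]
    have hj' : 2 ^ j ≤ n := by
      refine le_trans (Nat.pow_le_pow_right (by norm_num) ?_) hJ
      have := mem_range.1 hj
      omega
    have := close_pairs P n (2 ^ j) (by positivity) hj' hP
    push_cast at this
    exact mul_le_mul_of_nonneg_right this (by positivity)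
  have h3 := Finset.sum_le_sum h2
  have h4 : ∑ j ∈ range (J + 1), ((2 : ℝ) ^ j)⁻¹ *
      (((P.card : ℝ) ^ 2 * (2 ^ j : ℝ) / (2 * n) - P.card) / 2) =
      (J + 1 : ℝ) * ((P.card : ℝ) ^ 2 / (4 * n)) -
        (P.card / 2) * ∑ j ∈ range (J + 1), ((2 : ℝ) ^ j)⁻¹ := by
    have : ∀ j ∈ range (J + 1), ((2 : ℝ) ^ j)⁻¹ *
      (((P.card : ℝ) ^ 2 * (2 ^ j : ℝ) / (2 * n) - P.card) / 2) =
        (P.card : ℝ) ^ 2 / (4 * n) - (P.card / 2) * ((2 : ℝ) ^ j)⁻¹ := by
      intro j _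
      field_simp
      ring
    rw [Finset.sum_congr rfl this, Finset.sum_sub_distrib, ← Finset.mul_sum]
    simp
  have h5 : ∑ j ∈ range (J + 1), ((2 : ℝ) ^ j)⁻¹ ≤ 2 := by
    have : ∀ J : ℕ, ∑ j ∈ range (J + 1), ((2 : ℝ) ^ j)⁻¹ = 2 - ((2 : ℝ) ^ J)⁻¹ := by
      intro J
      induction J with
      | zero => norm_num
      | succ J ih =>
        rw [sum_range_succ, ih, pow_succ]
        field_simp
        ring
    rw [this]
    have : (0 : ℝ) < ((2 : ℝ) ^ J)⁻¹ := by positivity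
    linarith
  have h6 : (P.card / 2 : ℝ) * ∑ j ∈ range (J + 1), ((2 : ℝ) ^ j)⁻¹ ≤ (P.card / 2 : ℝ) * 2 :=
    mul_le_mul_of_nonneg_left h5 (by positivity)
  have h7 : (J + 1 : ℝ) * (P.card : ℝ) ^ 2 / (8 * n) =
      (1 / 2) * ((J + 1 : ℝ) * ((P.card : ℝ) ^ 2 / (4 * n))) := by
    field_simp
    ring
  rw [h4] at h3
  rw [h7]
  linarith

end Pool.Agent.Lib.MP_572a82_pr
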