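import Pool.Agent.Lib.MP_572a82_pr.Struct
import Pool.Agent.Lib.MP_572a82_pr.Ints

open SimpleGraph Finset

namespace Pool.Agent.Lib.MP_572a82_pr

variable {V : Type*} [Fintype V]

open Classical in
/-- Sum of reciprocal side sizes over the oriented bridges of `H` pointing towards `u`. -/
noncomputable def W (H : SimpleGraph V) (u : V) : ℝ :=
  ∑ d ∈ (bd H).filter (fun d => u ∈ side H d), 1 / ((side H d).card : ℝ)

open Classical in
/-- Ordered pairs of vertices in two different components, both with at least `s` vertices. -/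
noncomputable def Om (H : SimpleGraph V) (s : ℕ) : Finset (V × V) :=
  (nonr H).filter (fun d => s ≤ (comp H d.1).card ∧ s ≤ (comp H d.2).card)

lemma side_card_pos (G : SimpleGraph V) (d : V × V) : 0 < (side G d).card := comp_card_pos _ _

lemma W_nonneg (H : SimpleGraph V) (u : V) : 0 ≤ W H u := by
  unfold W
  exact Finset.sum_nonneg (fun d _ => by positivity)

open Classical in
lemma sum_W_le (H : SimpleGraph V) (U : Finset V) :
    ∑ u ∈ U, W H u ≤ 2 * (Fintype.card V : ℝ) := by
  unfold W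
  have h1 : ∀ u ∈ U, ∑ d ∈ (bd H).filter (fun d => u ∈ side H d), 1 / ((side H d).card : ℝ) =
      ∑ d ∈ bd H, if u ∈ side H d then 1 / ((side H d).card : ℝ) else 0 := by
    intro u _
    rw [Finset.sum_filter]
  rw [Finset.sum_congr rfl h1, Finset.sum_comm]
  have h2 : ∀ d ∈ bd H, ∑ u ∈ U, (if u ∈ side H d then 1 / ((side H d).card : ℝ) else 0) ≤ 1 := by
    intro d _
    rw [← Finset.sum_filter, Finset.sum_const, nsmul_eq_mul]
    have h3 : (U.filter (fun u => u ∈ side H d)).card ≤ (side H d).card := by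
      apply Finset.card_le_card
      intro u hu
      exact (Finset.mem_filter.1 hu).2
    have h4 : (0 : ℝ) < (side H d).card := by exact_mod_cast side_card_pos H d
    rw [mul_one_div, div_le_one h4]
    exact_mod_cast h3
  refine (Finset.sum_le_sum h2).trans ?_
  rw [Finset.sum_const, nsmul_eq_mul, mul_one]
  exact_mod_cast card_bd_le H

open Classical in
lemma upper (H : SimpleGraph V) (s : ℕ) :
    (s : ℝ) * ∑ d ∈ Om H s, W H d.1 ≤ 2 * (Fintype.card V : ℝ) * (Om H s).card := by
  have h1 : ∑ d ∈ Om H s, W H d.1 =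
      ∑ v : V, ∑ u ∈ Finset.univ.filter (fun u => (u, v) ∈ Om H s), W H u := by
    rw [Finset.sum_sigma']
    refine Finset.sum_bij' (fun d _ => ⟨d.2, d.1⟩) (fun x _ => (x.2, x.1)) ?_ ?_ ?_ ?_ ?_
    · intro d hd; simpa using hd
    · rintro ⟨v, u⟩ hx; simpa using hx
    · intro d hd; rfl
    · rintro ⟨v, u⟩ hx; rfl
    · intro d hd; rfl
  have h2 : (Om H s).card =
      ∑ v : V, (Finset.univ.filter (fun u => (u, v) ∈ Om H s)).card := by
    rw [← Finset.card_sigma]
    refine Finset.card_bij' (fun d _ => ⟨d.2, d.1⟩) (fun x _ => (x.2, x.1)) ?_ ?_ ?_ ?_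
    · intro d hd; simpa using hd
    · rintro ⟨v, u⟩ hx; simpa using hx
    · intro d hd; rfl
    · rintro ⟨v, u⟩ hx; rfl
  rw [h1, h2]
  push_cast
  rw [Finset.mul_sum, Finset.mul_sum]
  apply Finset.sum_le_sum
  intro v _
  rcases Finset.eq_empty_or_nonempty (Finset.univ.filter (fun u => (u, v) ∈ Om H s)) with h | h
  · rw [h]; simp
  · obtain ⟨u, hu⟩ := h
    have hs : s ≤ (Finset.univ.filter (fun u => (u, v) ∈ Om H s)).card := by
      simp only [mem_filter, mem_univ, true_and, Om, mem_nonr] at hu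
      refine hu.2.1.trans ?_
      apply Finset.card_le_card
      intro w hw
      rw [mem_comp] at hw
      simp only [mem_filter, mem_univ, true_and, Om, mem_nonr]
      refine ⟨fun h => hu.1 (hw.trans h), ?_, hu.2.2⟩
      rw [← comp_eq_of_reachable H hw]
      exact hu.2.1
    have h3 := sum_W_le H (Finset.univ.filter (fun u => (u, v) ∈ Om H s))
    have hs' : (s : ℝ) ≤ (Finset.univ.filter (fun u => (u, v) ∈ Om H s)).card := by
      exact_mod_cast hs
    calc (s : ℝ) * ∑ u ∈ Finset.univ.filter (fun u => (u, v) ∈ Om H s), W H u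
        ≤ s * (2 * (Fintype.card V : ℝ)) := mul_le_mul_of_nonneg_left h3 (by positivity)
      _ = 2 * (Fintype.card V : ℝ) * s := by ring
      _ ≤ _ := mul_le_mul_of_nonneg_left hs' (by positivity)

open Classical in
/-- The oriented bridges of `G`, whose removal stays in `A` and leaves two pieces of size `≥ s`. -/
noncomputable def SS (A : Finset (SimpleGraph V)) (G : SimpleGraph V) (s : ℕ) : Finset (V × V) :=
  (bd G).filter (fun d => del G d.1 d.2 ∈ A ∧
    (s ≤ (comp (del G d.1 d.2) d.1).card ∧ s ≤ (comp (del G d.1 d.2) d.2).card))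

open Classical in
lemma count_Om (A : Finset (SimpleGraph V)) (hA : BridgeAddable (A : Set (SimpleGraph V)))
    (s : ℕ) : ∑ H ∈ A, ((Om H s).card : ℝ) = ∑ G ∈ A, ((SS A G s).card : ℝ) := by
  have h := double_count A hA (fun G d =>
    if (s ≤ (comp (del G d.1 d.2) d.1).card ∧ s ≤ (comp (del G d.1 d.2) d.2).card) then 1 else 0)
  have h1 : ∀ H ∈ A, ∑ d ∈ nonr H, (if (s ≤ (comp (del (H ⊔ edge d.1 d.2) d.1 d.2) d.1).card ∧
      s ≤ (comp (del (H ⊔ edge d.1 d.2) d.1 d.2) d.2).card) then (1 : ℝ) else 0) =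
      ((Om H s).card : ℝ) := by
    intro H _
    unfold Om
    rw [Finset.card_filter]
    push_cast
    apply Finset.sum_congr rfl
    intro d hd
    rw [mem_nonr] at hd
    rw [del_sup_edge H d.1 d.2 hd]
  have h2 : ∀ G ∈ A, ∑ d ∈ (bd G).filter (fun d => del G d.1 d.2 ∈ A),
      (if (s ≤ (comp (del G d.1 d.2) d.1).card ∧
        s ≤ (comp (del G d.1 d.2) d.2).card) then (1 : ℝ) else 0) = ((SS A G s).card : ℝ) := by
    intro G _
    unfold SS
    rw [← Finset.filter_filter, Finset.card_filter]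
    push_cast
    rfl
  rw [← Finset.sum_congr rfl h1, ← Finset.sum_congr rfl h2]
  exact h

open Classical in
lemma count_W (A : Finset (SimpleGraph V)) (hA : BridgeAddable (A : Set (SimpleGraph V)))
    (s : ℕ) : ∑ H ∈ A, ∑ d ∈ Om H s, W H d.1 =
      ∑ G ∈ A, ∑ d ∈ SS A G s, W (del G d.1 d.2) d.1 := by
  have h := double_count A hA (fun G d =>
    if (s ≤ (comp (del G d.1 d.2) d.1).card ∧ s ≤ (comp (del G d.1 d.2) d.2).card) then
      W (del G d.1 d.2) d.1 else 0)
  have h1 : ∀ H ∈ A, ∑ d ∈ nonr H, (if (s ≤ (comp (del (H ⊔ edge d.1 d.2) d.1 d.2) d.1).card ∧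
      s ≤ (comp (del (H ⊔ edge d.1 d.2) d.1 d.2) d.2).card) then
        W (del (H ⊔ edge d.1 d.2) d.1 d.2) d.1 else 0) =
      ∑ d ∈ Om H s, W H d.1 := by
    intro H _
    unfold Om
    rw [Finset.sum_filter]
    apply Finset.sum_congr rfl
    intro d hd
    rw [mem_nonr] at hd
    rw [del_sup_edge H d.1 d.2 hd]
  have h2 : ∀ G ∈ A, ∑ d ∈ (bd G).filter (fun d => del G d.1 d.2 ∈ A),
      (if (s ≤ (comp (del G d.1 d.2) d.1).card ∧
        s ≤ (comp (del G d.1 d.2) d.2).card) then W (del G d.1 d.2) d.1 else 0) =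
      ∑ d ∈ SS A G s, W (del G d.1 d.2) d.1 := by
    intro G _
    unfold SS
    rw [← Finset.filter_filter, Finset.sum_filter (p := fun d : V × V =>
      (s ≤ (comp (del G d.1 d.2) d.1).card ∧ s ≤ (comp (del G d.1 d.2) d.2).card))]
  rw [← Finset.sum_congr rfl h1, ← Finset.sum_congr rfl h2]
  exact h

end Pool.Agent.Lib.MP_572a82_pr
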