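import Pool.Agent.Lib.MP_572a82_pr.Log

open SimpleGraph Finset

namespace Pool.Agent.Lib.MP_572a82_pr

variable {V : Type*} [Fintype V]

open Classical in
/-- Energy bound for the bridges of a set `S` separating `a` from `b`. -/
lemma lower_ab (G : SimpleGraph V) (S : Finset (V × V)) (a b : V) (J : ℕ)
    (hJ : 2 ^ J ≤ Fintype.card V) :
    (J + 1 : ℝ) * ((S.filter (fun d => Sep G a b d)).card : ℝ) ^ 2 / (8 * Fintype.card V) -
      ((S.filter (fun d => Sep G a b d)).card : ℝ) / 2 ≤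
      ∑ d ∈ S, W (del G d.1 d.2) d.1 := by
  set D := S.filter (fun d => Sep G a b d) with hD
  set x : V × V → ℕ := fun d => (side G d).card with hx
  have hinj : Set.InjOn x D := by
    intro d hd d' hd' h
    by_contra hne
    have h1 := (Finset.mem_filter.1 (Finset.mem_coe.1 hd)).2
    have h2 := (Finset.mem_filter.1 (Finset.mem_coe.1 hd')).2
    exact (sep_order (u := d.1) (v := d.2) (p := d'.1) (q := d'.2) h1 h2 hne).1 h
  have hcard : (D.image x).card = D.card := Finset.card_image_of_injOn hinj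
  have hP : ∀ y ∈ D.image x, y ≤ Fintype.card V := by
    intro y hy
    obtain ⟨d, _, rfl⟩ := Finset.mem_image.1 hy
    exact Finset.card_le_univ _
  have hE := energy (D.image x) (Fintype.card V) J hJ hP
  rw [hcard] at hE
  refine hE.trans ?_
  have h1 : ∑ z ∈ ((D.image x) ×ˢ (D.image x)).filter (fun z => z.1 < z.2),
      1 / ((z.2 : ℝ) - z.1) =
      ∑ e ∈ (D ×ˢ D).filter (fun e => x e.1 < x e.2), 1 / ((x e.2 : ℝ) - x e.1) := by
    symm
    refine Finset.sum_bij (fun e _ => (x e.1, x e.2)) ?_ ?_ ?_ ?_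
    · intro e he
      rw [mem_filter, mem_product] at he ⊢
      exact ⟨⟨mem_image_of_mem _ he.1.1, mem_image_of_mem _ he.1.2⟩, he.2⟩
    · intro e he e' he' h
      rw [mem_filter, mem_product] at he he'
      have h1 := congrArg Prod.fst h
      have h2 := congrArg Prod.snd h
      exact Prod.ext (hinj he.1.1 he'.1.1 h1) (hinj he.1.2 he'.1.2 h2)
    · intro z hz
      rw [mem_filter, mem_product] at hz
      obtain ⟨⟨h1, h2⟩, h3⟩ := hz
      obtain ⟨d, hd, hd'⟩ := mem_image.1 h1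
      obtain ⟨e, he, he'⟩ := mem_image.1 h2
      refine ⟨(d, e), ?_, Prod.ext hd' he'⟩
      rw [mem_filter, mem_product]
      refine ⟨⟨hd, he⟩, ?_⟩
      rw [hd', he']; exact h3
    · intro e he; rfl
  rw [h1]
  have h2 : ∑ e ∈ (D ×ˢ D).filter (fun e => x e.1 < x e.2), 1 / ((x e.2 : ℝ) - x e.1) =
      ∑ d' ∈ D, ∑ d ∈ D.filter (fun d => x d' < x d), 1 / ((x d : ℝ) - x d') := by
    rw [Finset.sum_sigma']
    refine Finset.sum_bij' (fun e _ => ⟨e.1, e.2⟩) (fun e _ => (e.1, e.2)) ?_ ?_ ?_ ?_ ?_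
    · intro e he
      rw [mem_filter, mem_product] at he
      exact mem_sigma.2 ⟨he.1.1, mem_filter.2 ⟨he.1.2, he.2⟩⟩
    · rintro ⟨e, e'⟩ he
      have h5 := mem_sigma.1 he
      have h6 := mem_filter.1 h5.2
      exact mem_filter.2 ⟨mem_product.2 ⟨h5.1, h6.1⟩, h6.2⟩
    · intro e he; rfl
    · intro e he; rfl
    · intro e he; rfl
  rw [h2]
  have h3 : ∀ d' ∈ D, ∑ d ∈ D.filter (fun d => x d' < x d), 1 / ((x d : ℝ) - x d') ≤
      W (del G d'.1 d'.2) d'.1 := by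
    intro d' hd'
    have hs' := (Finset.mem_filter.1 hd').2
    unfold W
    have h4 : ∀ d ∈ D.filter (fun d => x d' < x d),
        d ∈ (bd (del G d'.1 d'.2)).filter (fun d => d'.1 ∈ side (del G d'.1 d'.2) d) ∧
        1 / ((x d : ℝ) - x d') = 1 / ((side (del G d'.1 d'.2) d).card : ℝ) := by
      intro d hd
      rw [mem_filter] at hd
      have hs := (Finset.mem_filter.1 hd.1).2
      have hne : (d.1, d.2) ≠ (d'.1, d'.2) := by
        intro h
        have : d = d' := h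
        rw [this] at hd
        exact lt_irrefl _ hd.2
      obtain ⟨h5, h6, h7⟩ := (sep_order (u := d.1) (v := d.2) (p := d'.1) (q := d'.2)
        hs hs' hne).2 hd.2
      refine ⟨mem_filter.2 ⟨h5, h6⟩, ?_⟩
      have h8 : x d' ≤ x d := hd.2.le
      have h9 : ((side (del G d'.1 d'.2) d).card : ℝ) = (x d : ℝ) - x d' := by
        rw [← Nat.cast_sub h8]
        exact_mod_cast h7
      rw [h9]
    calc ∑ d ∈ D.filter (fun d => x d' < x d), 1 / ((x d : ℝ) - x d')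
        = ∑ d ∈ D.filter (fun d => x d' < x d), 1 / ((side (del G d'.1 d'.2) d).card : ℝ) :=
          Finset.sum_congr rfl (fun d hd => (h4 d hd).2)
      _ ≤ _ := by
          apply Finset.sum_le_sum_of_subset_of_nonneg
          · intro d hd; exact (h4 d hd).1
          · intro d _ _; positivity
  refine (Finset.sum_le_sum h3).trans ?_
  apply Finset.sum_le_sum_of_subset_of_nonneg (Finset.filter_subset _ _)
  intro d _ _
  exact W_nonneg _ _

open Classical in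
lemma sep_count (G : SimpleGraph V) (d : V × V) (hd : d ∈ bd G) :
    (Finset.univ.filter (fun ab : V × V => Sep G ab.1 ab.2 d)).card =
      (comp (del G d.1 d.2) d.1).card * (comp (del G d.1 d.2) d.2).card := by
  rw [← card_product]
  congr 1
  ext ⟨a, b⟩
  rw [mem_filter, mem_product, mem_comp, mem_comp]
  rw [mem_bd] at hd
  unfold Sep
  constructor
  · rintro ⟨_, _, h1, h2⟩; exact ⟨h1.symm, h2⟩
  · rintro ⟨h1, h2⟩; exact ⟨mem_univ _, hd, h1.symm, h2⟩

open Classical in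
lemma lower (A : Finset (SimpleGraph V)) (G : SimpleGraph V) (s : ℕ) (J : ℕ)
    (hJ : 2 ^ J ≤ Fintype.card V) :
    (J + 1 : ℝ) * (s : ℝ) ^ 4 * ((SS A G s).card : ℝ) ^ 2 / (8 * (Fintype.card V : ℝ) ^ 5) -
      ((SS A G s).card : ℝ) / 2 ≤
      ∑ d ∈ SS A G s, W (del G d.1 d.2) d.1 := by
  set n := Fintype.card V with hn
  have hn0 : 0 < n := lt_of_lt_of_le (by positivity) hJ
  have hn' : (0 : ℝ) < n := by exact_mod_cast hn0
  set S := SS A G s with hS
  set k : V × V → ℕ := fun ab => (S.filter (fun d => Sep G ab.1 ab.2 d)).card with hk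
  set R := ∑ d ∈ S, W (del G d.1 d.2) d.1 with hR
  have h1 : ∀ ab ∈ (Finset.univ : Finset (V × V)),
      (J + 1 : ℝ) * (k ab : ℝ) ^ 2 / (8 * n) - (k ab : ℝ) / 2 ≤ R := by
    intro ab _
    exact lower_ab G S ab.1 ab.2 J hJ
  have h2 := Finset.sum_le_sum h1
  rw [Finset.sum_const, Finset.card_univ, Fintype.card_prod, ← hn, nsmul_eq_mul,
    Finset.sum_sub_distrib, ← Finset.sum_div, ← Finset.sum_div, ← Finset.mul_sum] at h2
  have h3 : ∑ ab : V × V, k ab =
      ∑ d ∈ S, (comp (del G d.1 d.2) d.1).card * (comp (del G d.1 d.2) d.2).card := by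
    rw [hk]
    simp_rw [Finset.card_filter]
    rw [Finset.sum_comm]
    apply Finset.sum_congr rfl
    intro d hd
    rw [← sep_count G d (by rw [hS] at hd; unfold SS at hd; exact (mem_filter.1 hd).1),
      Finset.card_filter]
  have h4 : (s : ℝ) ^ 2 * S.card ≤ ∑ ab : V × V, (k ab : ℝ) := by
    have h5 : s ^ 2 * S.card ≤ ∑ ab : V × V, k ab := by
      rw [h3, mul_comm, ← smul_eq_mul, ← Finset.sum_const]
      apply Finset.sum_le_sum
      intro d hd
      rw [hS] at hd; unfold SS at hd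
      obtain ⟨_, _, h6, h7⟩ := mem_filter.1 hd
      rw [sq]
      exact Nat.mul_le_mul h6 h7
    exact_mod_cast h5
  have h5 : ∑ ab : V × V, (k ab : ℝ) ≤ (n : ℝ) ^ 2 * S.card := by
    have h6 : ∑ ab : V × V, k ab ≤ n ^ 2 * S.card := by
      rw [h3, mul_comm, ← smul_eq_mul, ← Finset.sum_const]
      apply Finset.sum_le_sum
      intro d hd
      rw [sq]
      exact Nat.mul_le_mul (Finset.card_le_univ _) (Finset.card_le_univ _)
    exact_mod_cast h6
  have h6 : (∑ ab : V × V, (k ab : ℝ)) ^ 2 ≤ (n : ℝ) ^ 2 * ∑ ab : V × V, (k ab : ℝ) ^ 2 := by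
    have := sq_sum_le_card_mul_sum_sq (s := (Finset.univ : Finset (V × V)))
      (f := fun ab => (k ab : ℝ))
    rw [Finset.card_univ, Fintype.card_prod, ← hn] at this
    push_cast at this
    rw [sq (n : ℝ)]
    exact this
  have h7 : ((s : ℝ) ^ 2 * S.card) ^ 2 ≤ (n : ℝ) ^ 2 * ∑ ab : V × V, (k ab : ℝ) ^ 2 := by
    refine le_trans ?_ h6
    exact pow_le_pow_left₀ (by positivity) h4 2
  generalize (∑ ab : V × V, (k ab : ℝ) ^ 2) = Q at h2 h7
  generalize (∑ ab : V × V, (k ab : ℝ)) = Q1 at h2 h5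
  generalize hm : (S.card : ℝ) = m at h5 h7
  have hJ1 : (0 : ℝ) ≤ J + 1 := by positivity
  have h8 : (s : ℝ) ^ 4 * m ^ 2 / (n : ℝ) ^ 2 ≤ Q := by
    rw [div_le_iff₀ (by positivity)]
    calc (s : ℝ) ^ 4 * m ^ 2 = ((s : ℝ) ^ 2 * m) ^ 2 := by ring
      _ ≤ (n : ℝ) ^ 2 * Q := h7
      _ = _ := by ring
  have h9 : (J + 1 : ℝ) * ((s : ℝ) ^ 4 * m ^ 2 / (n : ℝ) ^ 2) / (8 * n) ≤
      (J + 1 : ℝ) * Q / (8 * n) := by
    apply div_le_div_of_nonneg_right _ (by positivity)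
    exact mul_le_mul_of_nonneg_left h8 hJ1
  have h10 : (J + 1 : ℝ) * ((s : ℝ) ^ 4 * m ^ 2 / (n : ℝ) ^ 2) / (8 * n) -
      (n : ℝ) ^ 2 * m / 2 ≤ ((n * n : ℕ) : ℝ) * R := by
    have : (n : ℝ) ^ 2 * m / 2 ≥ Q1 / 2 := by linarith
    linarith
  have h11 : (J + 1 : ℝ) * ((s : ℝ) ^ 4 * m ^ 2 / (n : ℝ) ^ 2) / (8 * n) -
      (n : ℝ) ^ 2 * m / 2 =
      (n : ℝ) ^ 2 * ((J + 1 : ℝ) * (s : ℝ) ^ 4 * m ^ 2 / (8 * (n : ℝ) ^ 5) - m / 2) := by
    field_simp
  rw [h11] at h10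
  have h12 : ((n * n : ℕ) : ℝ) = (n : ℝ) ^ 2 := by push_cast; ring
  rw [h12] at h10
  exact le_of_mul_le_mul_left h10 (by positivity)

open Classical in
/-- Few graphs of a bridge-addable set have two components with at least `s` vertices. -/
lemma sum_SS_le (A : Finset (SimpleGraph V)) (hA : BridgeAddable (A : Set (SimpleGraph V)))
    (s : ℕ) (J : ℕ) (hs : 0 < s) (hsn : s ≤ Fintype.card V) (hJ : 2 ^ J ≤ Fintype.card V) :
    (J + 1 : ℝ) * (s : ℝ) ^ 5 * ∑ H ∈ A, ((Om H s).card : ℝ) ≤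
      24 * (Fintype.card V : ℝ) ^ 6 * A.card := by
  set n := Fintype.card V with hn
  have hn0 : 0 < n := lt_of_lt_of_le (by positivity) hJ
  have hn' : (0 : ℝ) < n := by exact_mod_cast hn0
  have hs' : (0 : ℝ) < s := by exact_mod_cast hs
  have hsn' : (s : ℝ) ≤ n := by exact_mod_cast hsn
  rw [count_Om A hA s]
  have h1 : (s : ℝ) * ∑ H ∈ A, ∑ d ∈ Om H s, W H d.1 ≤
      2 * n * ∑ H ∈ A, ((Om H s).card : ℝ) := by
    rw [Finset.mul_sum, Finset.mul_sum]
    exact Finset.sum_le_sum (fun H _ => upper H s)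
  rw [count_W A hA s, count_Om A hA s] at h1
  have h2 : ∑ G ∈ A, ((J + 1 : ℝ) * (s : ℝ) ^ 4 * ((SS A G s).card : ℝ) ^ 2 /
      (8 * (n : ℝ) ^ 5) - ((SS A G s).card : ℝ) / 2) ≤
      ∑ G ∈ A, ∑ d ∈ SS A G s, W (del G d.1 d.2) d.1 :=
    Finset.sum_le_sum (fun G _ => lower A G s J hJ)
  rw [Finset.sum_sub_distrib, ← Finset.sum_div, ← Finset.sum_div, ← Finset.mul_sum] at h2
  have h3 := sq_sum_le_card_mul_sum_sq (s := A) (f := fun G => ((SS A G s).card : ℝ))
  generalize (∑ G ∈ A, ((SS A G s).card : ℝ) ^ 2) = Q at h2 h3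
  have hQ1 : 0 ≤ ∑ G ∈ A, ((SS A G s).card : ℝ) := Finset.sum_nonneg (fun _ _ => by positivity)
  generalize (∑ G ∈ A, ((SS A G s).card : ℝ)) = T at h1 h2 h3 hQ1 ⊢
  generalize (∑ G ∈ A, ∑ d ∈ SS A G s, W (del G d.1 d.2) d.1) = R at h1 h2
  have hN : (0 : ℝ) ≤ A.card := by positivity
  generalize (A.card : ℝ) = N at h3 hN ⊢
  rcases hQ1.eq_or_lt with h0 | h0
  · rw [← h0]; simp; positivity
  · -- main case
    have h4 : (J + 1 : ℝ) * (s : ℝ) ^ 4 * Q / (8 * (n : ℝ) ^ 5) ≤ 3 * n / s * T := by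
      have h5 : R ≤ 2 * n / s * T := by
        rw [div_mul_eq_mul_div, le_div_iff₀ hs']; linarith
      have h6 : T / 2 ≤ n / s * T := by
        have : (1 : ℝ) ≤ n / s := by rw [le_div_iff₀ hs']; linarith
        nlinarith
      have h7 : 3 * (n : ℝ) / s * T = 2 * n / s * T + n / s * T := by ring
      linarith
    rw [div_le_iff₀ (by positivity)] at h4
    have h5 : (J + 1 : ℝ) * (s : ℝ) ^ 5 * Q ≤ 24 * (n : ℝ) ^ 6 * T := by
      have := mul_le_mul_of_nonneg_left h4 hs'.le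
      calc (J + 1 : ℝ) * (s : ℝ) ^ 5 * Q = s * ((J + 1 : ℝ) * (s : ℝ) ^ 4 * Q) := by ring
        _ ≤ s * (3 * n / s * T * (8 * (n : ℝ) ^ 5)) := this
        _ = _ := by field_simp; ring
    have h6 : (J + 1 : ℝ) * (s : ℝ) ^ 5 * T ^ 2 ≤ N * (24 * (n : ℝ) ^ 6 * T) := by
      calc (J + 1 : ℝ) * (s : ℝ) ^ 5 * T ^ 2 ≤ (J + 1 : ℝ) * (s : ℝ) ^ 5 * (N * Q) :=
            mul_le_mul_of_nonneg_left h3 (by positivity)
        _ = N * ((J + 1 : ℝ) * (s : ℝ) ^ 5 * Q) := by ring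
        _ ≤ _ := mul_le_mul_of_nonneg_left h5 hN
    have h7 : ((J + 1 : ℝ) * (s : ℝ) ^ 5 * T) * T ≤ (24 * (n : ℝ) ^ 6 * N) * T := by
      calc ((J + 1 : ℝ) * (s : ℝ) ^ 5 * T) * T = (J + 1 : ℝ) * (s : ℝ) ^ 5 * T ^ 2 := by ring
        _ ≤ _ := h6
        _ = _ := by ring
    exact le_of_mul_le_mul_right h7 h0

end Pool.Agent.Lib.MP_572a82_pr
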