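import Pool.Agent.Lib.MP_572a82_pr.Basic

open SimpleGraph Finset

namespace Pool.Agent.Lib.MP_572a82_pr

variable {V : Type*}

/-- The bridge `uv` separates `a` (on the side of `u`) from `b` (on the side of `v`). -/
def Sep (G : SimpleGraph V) (a b : V) (d : V × V) : Prop :=
  (G.Adj d.1 d.2 ∧ ¬ (del G d.1 d.2).Reachable d.1 d.2) ∧
    (del G d.1 d.2).Reachable a d.1 ∧ (del G d.1 d.2).Reachable d.2 b

lemma Sep.symm {G : SimpleGraph V} {a b : V} {d : V × V} (h : Sep G a b d) :
    Sep G b a (d.2, d.1) := by
  obtain ⟨⟨h1, h2⟩, h3, h4⟩ := h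
  refine ⟨⟨h1.symm, ?_⟩, ?_, ?_⟩
  · rw [del_comm]; exact fun h => h2 h.symm
  · rw [del_comm]; exact h4.symm
  · rw [del_comm]; exact h3.symm

lemma sep_ne {G : SimpleGraph V} {a b u v p q : V} (h1 : Sep G a b (u, v))
    (h2 : Sep G a b (p, q)) (hne : (u, v) ≠ (p, q)) : s(u, v) ≠ s(p, q) := by
  intro h
  rw [Sym2.eq_iff] at h
  rcases h with ⟨rfl, rfl⟩ | ⟨rfl, rfl⟩
  · exact hne rfl
  · obtain ⟨⟨_, h3⟩, h4, _⟩ := h1
    obtain ⟨_, h5, _⟩ := h2
    simp only at h3 h4 h5
    rw [del_comm] at h5
    exact h3 (h4.symm.trans h5)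

lemma case_one {G : SimpleGraph V} {a b u v p q : V} (h1 : Sep G a b (u, v))
    (h2 : Sep G a b (p, q)) (hne : (u, v) ≠ (p, q)) (hp : (del G u v).Reachable v p) :
    (del (del G p q) u v).Reachable v p ∧
      ∀ w, (del G u v).Reachable v w ↔
        ((del (del G p q) u v).Reachable v w ∨ (del G p q).Reachable q w) ∧
        ¬ ((del (del G p q) u v).Reachable v w ∧ (del G p q).Reachable q w) := by
  have hs := sep_ne h1 h2 hne
  obtain ⟨⟨a1, a2⟩, a3, a4⟩ := h1
  obtain ⟨⟨b1, b2⟩, b3, b4⟩ := h2
  simp only at a1 a2 a3 a4 b1 b2 b3 b4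
  have hK1 : del (del G p q) u v ≤ del G p q := del_le _ _ _
  have hK2 : del (del G p q) u v ≤ del G u v := by
    rw [del_del_comm]; exact del_le _ _ _
  have f2 : (del G u v).Adj p q := by
    rw [del_adj]; exact ⟨b1, fun h => hs h.symm⟩
  have f3 : (del G p q).Adj u v := by
    rw [del_adj]; exact ⟨a1, hs⟩
  have f4 : (del (del G p q) u v).Reachable a u := by
    rcases reach_cases (del G u v) p q a u a3 with h | ⟨h, h'⟩ | ⟨h, h'⟩
    · rw [del_del_comm]; exact h
    · exfalso
      exact a2 (a3.symm.trans ((h.mono (del_le _ _ _)).trans hp.symm))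
    · exfalso
      exact a2 ((h'.mono (del_le _ _ _)).symm.trans hp.symm)
  have f5 : ¬ (del G p q).Reachable q v := by
    intro h
    exact b2 (b3.symm.trans ((f4.mono hK1).trans (f3.reachable.trans h.symm)))
  have f5' : ¬ (del G p q).Reachable q u := by
    intro h
    exact b2 (b3.symm.trans ((f4.mono hK1).trans h.symm))
  have f6 : ∀ w, (del G p q).Reachable q w → (del (del G p q) u v).Reachable q w := by
    intro w hw
    rcases reach_cases (del G p q) u v q w hw with h | ⟨h, h'⟩ | ⟨h, h'⟩
    · exact h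
    · exact absurd (h.mono hK1) f5'
    · exact absurd (h.mono hK1) f5
  have f7 : ∀ w, (del G p q).Reachable q w → (del G u v).Reachable v w := by
    intro w hw
    exact hp.trans (f2.reachable.trans ((f6 w hw).mono hK2))
  have f9 : (del (del G p q) u v).Reachable v p := by
    rcases reach_cases (del G u v) p q v p hp with h | ⟨h, h'⟩ | ⟨h, h'⟩
    · rw [del_del_comm]; exact h
    · rw [del_del_comm]; exact h
    · exfalso
      rw [del_del_comm] at h
      exact f5 (h.mono hK1).symm
  refine ⟨f9, fun w => ⟨fun hw => ⟨?_, ?_⟩, ?_⟩⟩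
  · rcases reach_cases (del G u v) p q v w hw with h | ⟨h, h'⟩ | ⟨h, h'⟩
    · left; rw [del_del_comm]; exact h
    · right
      rw [del_del_comm] at h'
      exact h'.mono hK1
    · exfalso
      rw [del_del_comm] at h
      exact f5 (h.mono hK1).symm
  · rintro ⟨h, h'⟩
    exact f5 (h'.trans (h.mono hK1).symm)
  · rintro ⟨h | h, _⟩
    · exact h.mono hK2
    · exact f7 w h

variable [Fintype V]

lemma case_one_card {G : SimpleGraph V} {a b u v p q : V} (h1 : Sep G a b (u, v))
    (h2 : Sep G a b (p, q)) (hne : (u, v) ≠ (p, q)) (hp : (del G u v).Reachable v p) :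
    (side G (u, v)).card = (side (del G p q) (u, v)).card + (side G (p, q)).card := by
  classical
  obtain ⟨_, hh⟩ := case_one h1 h2 hne hp
  have h3 : side G (u, v) = side (del G p q) (u, v) ∪ side G (p, q) := by
    ext w
    rw [mem_union, mem_side, mem_side, mem_side]
    simp only
    constructor
    · intro h; exact ((hh w).1 h).1
    · intro h
      by_cases h4 : ((del (del G p q) u v).Reachable v w ∧ (del G p q).Reachable q w)
      · exfalso
        have h5 := (hh v).1 (Reachable.refl _)
        exact h5.2 ⟨Reachable.refl _, h4.2.trans (h4.1.mono (del_le _ _ _)).symm⟩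
      · exact (hh w).2 ⟨h, h4⟩
  have h4 : Disjoint (side (del G p q) (u, v)) (side G (p, q)) := by
    rw [Finset.disjoint_left]
    intro w hw1 hw2
    rw [mem_side] at hw1 hw2
    simp only at hw1 hw2
    have h5 := (hh v).1 (Reachable.refl _)
    exact h5.2 ⟨Reachable.refl _, hw2.trans (hw1.mono (del_le _ _ _)).symm⟩
  rw [h3, card_union_of_disjoint h4]

omit [Fintype V] in
lemma sep_reach {G : SimpleGraph V} {a b : V} {d : V × V} (h : Sep G a b d) :
    G.Reachable a b :=
  (h.2.1.mono (del_le _ _ _)).trans (h.1.1.reachable.trans (h.2.2.mono (del_le _ _ _)))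

/-- The order structure on the bridges separating `a` from `b`. -/
lemma sep_order {G : SimpleGraph V} {a b u v p q : V} (h1 : Sep G a b (u, v))
    (h2 : Sep G a b (p, q)) (hne : (u, v) ≠ (p, q)) :
    (side G (u, v)).card ≠ (side G (p, q)).card ∧
    ((side G (p, q)).card < (side G (u, v)).card →
      (u, v) ∈ bd (del G p q) ∧ p ∈ side (del G p q) (u, v) ∧
      (side (del G p q) (u, v)).card = (side G (u, v)).card - (side G (p, q)).card) := by
  have hside : ∀ (G : SimpleGraph V) (d : V × V), 0 < (side G d).card :=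
    fun G d => comp_card_pos _ _
  have hap : G.Reachable a p := (h2.2.1.mono (del_le _ _ _))
  have hs := sep_ne h1 h2 hne
  have key : (del G u v).Reachable v p ∨ (del G u v).Reachable u p := by
    rcases reach_cases G u v a p hap with h | ⟨_, h⟩ | ⟨h, h'⟩
    · right; exact h1.2.1.symm.trans h
    · left; exact h
    · right; exact h'
  rcases key with hp | hp
  · have hc := case_one_card h1 h2 hne hp
    have h0 := hside (del G p q) (u, v)
    refine ⟨by omega, fun _ => ⟨?_, ?_, by omega⟩⟩
    · rw [mem_bd]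
      refine ⟨?_, ?_⟩
      · simp only [del_adj]
        exact ⟨h1.1.1, hs⟩
      · simp only
        intro h
        apply h1.1.2
        rw [del_del_comm] at h
        exact h.mono (del_le _ _ _)
    · rw [mem_side]
      exact (case_one h1 h2 hne hp).1
  · -- the other order
    have hadj : (del G u v).Adj p q := by
      rw [del_adj]; exact ⟨h2.1.1, fun h => hs h.symm⟩
    have hq : (del G u v).Reachable u q := hp.trans hadj.reachable
    have hne' : (v, u) ≠ (q, p) := by
      intro h; apply hne
      simp only [Prod.mk.injEq] at h ⊢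
      exact ⟨h.2, h.1⟩
    have h3 := (case_one (h1.symm) (h2.symm) hne' (by rw [del_comm]; exact hq)).1
    have h4 : (del G p q).Reachable q u := by
      have := (h3.mono (del_le _ _ _)).symm
      rw [del_comm] at this
      exact this
    have hc := case_one_card h2 h1 hne.symm h4
    have h0 := hside (del G u v) (p, q)
    exact ⟨by omega, fun h => by omega⟩

end Pool.Agent.Lib.MP_572a82_pr
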